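import Pool.Agent.Helper15.FC.St3

set_option autoImplicit false

/-!
# Project FC (MP_16cbc0_nt), module PHI: Euler's function of a monic polynomial
-/

open Polynomial

namespace Pool.Agent.Helper30.FC

open Pool.Agent.Helper15.FC

private theorem lift_coprime {F : Type} [Field F] (r d y : F[X]) (hr : r ≠ 0)
    (h : IsCoprime y d) : ∃ t : F[X], IsCoprime (y + d * t) r := by
  classical
  set S : Finset F[X] :=
    (UniqueFactorizationMonoid.normalizedFactors r).toFinset.filter (fun P => ¬ P ∣ y) with hS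
  refine ⟨∏ P ∈ S, P, ?_⟩
  refine isCoprime_of_prime_dvd (fun h0 => hr h0.2) ?_
  intro z hz hzx hzr
  obtain ⟨P, hP, hPz⟩ :=
    UniqueFactorizationMonoid.exists_mem_normalizedFactors_of_dvd hr hz.irreducible hzr
  by_cases hPy : P ∣ y
  · have hzy : z ∣ y := hPz.dvd.trans hPy
    have hzdt : z ∣ d * ∏ P ∈ S, P := (dvd_add_right hzy).1 hzx
    rcases hz.dvd_or_dvd hzdt with h1 | h1
    · exact hz.not_isUnit (h.isUnit_of_dvd' hzy h1)
    · obtain ⟨Q, hQ, hzQ⟩ := (Prime.dvd_finsetProd_iff hz _).1 h1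
      rw [hS, Finset.mem_filter] at hQ
      have hQp : Prime Q :=
        UniqueFactorizationMonoid.prime_of_normalized_factor Q (Multiset.mem_toFinset.1 hQ.1)
      have hass : Associated z Q := hz.associated_of_dvd hQp hzQ
      exact hQ.2 (hass.symm.dvd.trans hzy)
  · have hPS : P ∈ S := by
      rw [hS, Finset.mem_filter]
      exact ⟨Multiset.mem_toFinset.2 hP, hPy⟩
    have h1 : z ∣ ∏ P ∈ S, P := hPz.dvd.trans (Finset.dvd_prod_of_mem _ hPS)
    have h2 : z ∣ y := (dvd_add_left (Dvd.dvd.mul_left h1 d)).1 hzx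
    exact hPy (hPz.symm.dvd.trans h2)

private theorem phi_le {F : Type} [Field F] [Fintype F] (r d : F[X]) (hr : r.Monic)
    (hd : d.Monic) (hdr : d ∣ r) : phi d ≤ phi r := by
  classical
  unfold phi
  refine Finset.card_le_card_of_surjOn (fun x => x %ₘ d) ?_
  intro y hy
  rw [Finset.mem_coe, Finset.mem_filter, mem_Lw] at hy
  obtain ⟨t, ht⟩ := lift_coprime r d y hr.ne_zero hy.2
  obtain ⟨e, he⟩ := hdr
  have h := Polynomial.modByMonic_add_div (y + d * t) r
  have h' : (y + d * t) %ₘ r = (y + d * t) + r * (-((y + d * t) /ₘ r)) := by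
    linear_combination h
  refine ⟨(y + d * t) %ₘ r, ?_, ?_⟩
  · rw [Finset.mem_coe, Finset.mem_filter, mem_Lw]
    refine ⟨?_, ?_⟩
    · rw [← Polynomial.degree_eq_natDegree hr.ne_zero]
      exact Polynomial.degree_modByMonic_lt _ hr
    · rw [h']
      exact IsCoprime.add_mul_left_left ht _
  · change ((y + d * t) %ₘ r) %ₘ d = y
    refine (Polynomial.div_modByMonic_unique (t - e * ((y + d * t) /ₘ r)) y hd ⟨?_, ?_⟩).2
    · rw [h']
      linear_combination ((y + d * t) /ₘ r) * he
    · rw [Polynomial.degree_eq_natDegree hd.ne_zero]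
      exact hy.1

private theorem cover {F : Type} [Field F] [Fintype F] (r x : F[X]) (hr : r.Monic)
    (hx : x.degree < r.natDegree) : ∃ g d y : F[X], r = g * d ∧ d.Monic ∧ x = g * y ∧
      y.degree < d.natDegree ∧ IsCoprime y d := by
  classical
  set g0 : F[X] := EuclideanDomain.gcd x r with hg0
  have hg0x : g0 ∣ x := EuclideanDomain.gcd_dvd_left x r
  have hg0r : g0 ∣ r := EuclideanDomain.gcd_dvd_right x r
  have hg0n : g0 ≠ 0 := fun h => hr.ne_zero (by
    rw [h] at hg0r
    exact zero_dvd_iff.1 hg0r)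
  have hlc : g0.leadingCoeff ≠ 0 := Polynomial.leadingCoeff_ne_zero.2 hg0n
  set g : F[X] := g0 * C (g0.leadingCoeff)⁻¹ with hg
  have hgm : g.Monic := Polynomial.monic_mul_leadingCoeff_inv hg0n
  have hgg : g0 = g * C g0.leadingCoeff := by
    rw [hg, mul_assoc, ← C_mul, inv_mul_cancel₀ hlc, C_1, mul_one]
  have hgg0 : g ∣ g0 := ⟨_, hgg⟩
  obtain ⟨y, hy⟩ := hgg0.trans hg0x
  obtain ⟨d, hd⟩ := hgg0.trans hg0r
  have hdm : d.Monic := by
    have h1 : (g * d).Monic := by rw [← hd]; exact hr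
    exact hgm.of_mul_monic_left h1
  refine ⟨g, d, y, hd, hdm, hy, ?_, ?_⟩
  · by_cases hy0 : y = 0
    · rw [hy0, Polynomial.degree_zero]
      exact WithBot.bot_lt_coe _
    · have hrd : r.natDegree = g.natDegree + d.natDegree := by
        rw [hd, Polynomial.natDegree_mul hgm.ne_zero hdm.ne_zero]
      have hxd : x.natDegree = g.natDegree + y.natDegree := by
        rw [hy, Polynomial.natDegree_mul hgm.ne_zero hy0]
      have hx0 : x ≠ 0 := by
        rw [hy]
        exact mul_ne_zero hgm.ne_zero hy0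
      rw [Polynomial.degree_eq_natDegree hx0, Nat.cast_lt] at hx
      rw [Polynomial.degree_eq_natDegree hy0, Nat.cast_lt]
      omega
  · have hab := EuclideanDomain.gcd_eq_gcd_ab x r
    rw [← hg0] at hab
    set a := EuclideanDomain.gcdA x r
    set b := EuclideanDomain.gcdB x r
    have h1 : g * (y * a + d * b) = g * C g0.leadingCoeff := by
      rw [← hgg, hab]
      conv_rhs => rw [hy, hd]
      ring
    have h2 : y * a + d * b = C g0.leadingCoeff := mul_left_cancel₀ hgm.ne_zero h1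
    refine ⟨a * C (g0.leadingCoeff)⁻¹, b * C (g0.leadingCoeff)⁻¹, ?_⟩
    have h3 : C g0.leadingCoeff * C (g0.leadingCoeff)⁻¹ = (1 : F[X]) := by
      rw [← C_mul, mul_inv_cancel₀ hlc, C_1]
    linear_combination C (g0.leadingCoeff)⁻¹ * h2 + h3

/-- **PHI**. -/
theorem hPHI : StPHI := by
  intro F _ _ r hr
  classical
  have hle : phi r ≤ (Lw F r.natDegree).card := Finset.card_filter_le _ _
  have hcov : (Lw F r.natDegree).card ≤ phi r * (Dv r).card := by
    have hsub : Lw F r.natDegree ⊆ (Dv r).biUnion (fun d =>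
        ((Lw F d.natDegree).filter (fun x => IsCoprime x d)).image (fun y => (r / d) * y)) := by
      intro x hx
      obtain ⟨g, d, y, h1, h2, h3, h4, h5⟩ := cover r x hr (mem_Lw.1 hx)
      rw [Finset.mem_biUnion]
      refine ⟨d, (mem_Dv hr.ne_zero).2 ⟨h2, ⟨g, by rw [h1, mul_comm]⟩⟩, ?_⟩
      rw [Finset.mem_image]
      refine ⟨y, Finset.mem_filter.2 ⟨mem_Lw.2 h4, h5⟩, ?_⟩
      rw [h1, mul_div_cancel_right₀ g h2.ne_zero, h3]
    calc (Lw F r.natDegree).card ≤ _ := Finset.card_le_card hsub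
      _ ≤ ∑ d ∈ Dv r, (((Lw F d.natDegree).filter (fun x => IsCoprime x d)).image
            (fun y => (r / d) * y)).card := Finset.card_biUnion_le
      _ ≤ ∑ d ∈ Dv r, phi r := by
          refine Finset.sum_le_sum fun d hd => ?_
          have hd' := (mem_Dv hr.ne_zero).1 hd
          exact Finset.card_image_le.trans (phi_le r d hr hd'.1 hd'.2)
      _ = phi r * (Dv r).card := by rw [Finset.sum_const, smul_eq_mul, mul_comm]
  rw [card_Lw] at hle hcov
  refine ⟨?_, ?_, ?_⟩
  · have h1 : phi (1 : F[X]) ≤ phi r := phi_le r 1 hr monic_one (one_dvd _)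
    have h2 : 1 ≤ phi (1 : F[X]) := by
      unfold phi
      refine Finset.card_pos.2 ⟨0, Finset.mem_filter.2 ⟨mem_Lw.2 ?_, isCoprime_one_right⟩⟩
      rw [Polynomial.degree_zero]
      exact WithBot.bot_lt_coe _
    exact h2.trans h1
  · unfold qr
    exact_mod_cast hle
  · unfold qr tau
    exact_mod_cast hcov

end Pool.Agent.Helper30.FC
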